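import Pool.Agent.Y157.PS.Stm6
import Pool.Agent.Y157.PS.Tools

/-!
# Sections for `F` induce sections of the geometrically pro-`ℓ` group of `F₀ = k(x, y)`

(helper674, part FUN of the project PS of helper157.)
-/

set_option autoImplicit false
set_option linter.all false

open Polynomial FF

namespace Pool.Agent.Y674.PS

open Pool.Agent.Y157.PS

/-- an element which is a root of a polynomial with coefficients in the image of `F₀` is in the
image of the algebraically closed field `Ω₀` -/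
theorem rng0 {F₀ Ω₀ Ω : Type} [Field F₀] [Field Ω₀] [Field Ω] [Algebra F₀ Ω₀] [IsAlgClosed Ω₀]
    (u : Ω₀ →+* Ω) (p : F₀[X]) (hp : p ≠ 0) (v : Ω)
    (h : p.eval₂ (u.comp (algebraMap F₀ Ω₀)) v = 0) : ∃ w, u w = v := by
  have hs : (p.map (algebraMap F₀ Ω₀)).Splits := IsAlgClosed.splits _
  have hq0 : p.map (algebraMap F₀ Ω₀) ≠ 0 :=
    (Polynomial.map_ne_zero_iff (algebraMap F₀ Ω₀).injective).2 hp
  have h1 : (p.map (algebraMap F₀ Ω₀)).eval₂ u v = 0 := by
    rw [Polynomial.eval₂_map]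
    exact h
  rw [hs.eq_prod_roots, Polynomial.eval₂_mul, Polynomial.eval₂_C] at h1
  have h2 : u (p.map (algebraMap F₀ Ω₀)).leadingCoeff ≠ 0 := by
    rw [_root_.map_ne_zero]
    exact Polynomial.leadingCoeff_ne_zero.2 hq0
  have h3 := (mul_eq_zero.1 h1).resolve_left h2
  rw [← Polynomial.coe_eval₂RingHom, map_multiset_prod, Multiset.prod_eq_zero_iff,
    Multiset.map_map, Multiset.mem_map] at h3
  obtain ⟨a, -, ha⟩ := h3
  refine ⟨a, ?_⟩
  simp only [Function.comp_apply, Polynomial.coe_eval₂RingHom, Polynomial.eval₂_sub,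
    Polynomial.eval₂_X, Polynomial.eval₂_C] at ha
  exact (sub_eq_zero.1 ha).symm

section

variable {k F₀ Ω₀ F Ω : Type} [Field k] [Field F₀] [Field Ω₀] [Field F] [Field Ω] [Algebra k F₀]
  [Algebra F₀ Ω₀] [Algebra k Ω₀] [IsScalarTower k F₀ Ω₀] [Algebra k F] [Algebra F Ω]
  [Algebra k Ω] [IsScalarTower k F Ω]

theorem rng1 [IsAlgClosed Ω₀] [Algebra.IsAlgebraic F₀ Ω₀] (i : F₀ →+* F) (u : Ω₀ →+* Ω)
    (hu : ∀ a, u (algebraMap F₀ Ω₀ a) = algebraMap F Ω (i a)) (w : Ω₀) (v : Ω)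
    (τ : Ω →+* Ω) (hτ : ∀ a : F, τ (algebraMap F Ω a) = algebraMap F Ω a) :
    ∃ w', u w' = τ (u w) := by
  obtain ⟨p, hp, hpw⟩ := Algebra.IsAlgebraic.isAlgebraic (R := F₀) w
  refine rng0 u p hp _ ?_
  have h1 : u.comp (algebraMap F₀ Ω₀) = (τ.comp u).comp (algebraMap F₀ Ω₀) := by
    ext a
    simp only [RingHom.comp_apply]
    rw [hu, hτ]
  rw [h1, show τ (u w) = (τ.comp u) w from rfl, ← Polynomial.hom_eval₂]
  rw [Polynomial.aeval_def] at hpw
  rw [hpw, map_zero]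

/-- automorphisms of `Ω` over `F` induce automorphisms of `Ω₀` over `F₀` -/
theorem aut0 [IsAlgClosed Ω₀] [Algebra.IsAlgebraic F₀ Ω₀] (i : F₀ →+* F) (u : Ω₀ →+* Ω)
    (hu : ∀ a, u (algebraMap F₀ Ω₀ a) = algebraMap F Ω (i a)) (τ : Ω ≃ₐ[F] Ω) :
    ∃ τ₀ : Ω₀ ≃ₐ[F₀] Ω₀, ∀ w, u (τ₀ w) = τ (u w) := by
  have hex : ∀ (τ : Ω ≃ₐ[F] Ω) (w : Ω₀), ∃ w', u w' = τ (u w) := fun τ w =>
    rng1 i u hu w 0 (τ : Ω →+* Ω) (fun a => τ.commutes a)
  choose f hf using hex
  have hinj := u.injective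
  let T0 : (Ω ≃ₐ[F] Ω) → (Ω₀ →ₐ[F₀] Ω₀) := fun τ =>
    { toFun := f τ
      map_one' := hinj (by rw [hf, map_one, map_one])
      map_mul' := fun a b => hinj (by rw [hf, map_mul, map_mul, map_mul, hf, hf])
      map_zero' := hinj (by rw [hf, map_zero, map_zero])
      map_add' := fun a b => hinj (by rw [hf, map_add, map_add, map_add, hf, hf])
      commutes' := fun a => hinj (by rw [hf, hu, τ.commutes]) }
  have hT0 : ∀ τ w, u (T0 τ w) = τ (u w) := fun τ w => hf τ w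
  refine ⟨AlgEquiv.ofAlgHom (T0 τ) (T0 τ⁻¹) ?_ ?_, fun w => hT0 τ w⟩
  · ext w
    apply hinj
    change u (T0 τ (T0 τ⁻¹ w)) = u w
    rw [hT0, hT0]
    exact τ.apply_symm_apply _
  · ext w
    apply hinj
    change u (T0 τ⁻¹ (T0 τ w)) = u w
    rw [hT0, hT0]
    exact τ.symm_apply_apply _

/-- restriction of automorphisms -/
theorem restr' [IsAlgClosed Ω] [Algebra.IsAlgebraic F Ω]
    (i : F₀ →+* F) (u : Ω₀ →+* Ω) (hu : ∀ a, u (algebraMap F₀ Ω₀ a) = algebraMap F Ω (i a))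
    (M : IntermediateField F₀ Ω₀) (N : IntermediateField F Ω) (hMN : ∀ z ∈ M, u z ∈ N)
    (hM : ∀ σ : Ω ≃ₐ[F] Ω, ∀ z ∈ M, ∃ w ∈ M, u w = σ (u z)) :
    ∃ Φ : (N ≃ₐ[F] N) →* (M ≃ₐ[F₀] M), Continuous Φ ∧
      ∀ (e : N ≃ₐ[F] N) (z : N) (w : M), u (w : Ω₀) = (z : Ω) →
        u ((Φ e w : M) : Ω₀) = ((e z : N) : Ω) := by
  haveI : IsAlgClosure F Ω := ⟨inferInstance, inferInstance⟩
  haveI : Normal F Ω := IsAlgClosure.normal F Ω
  have hst : ∀ (e : N ≃ₐ[F] N) (z : M), ∃ w : M,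
      u (w : Ω₀) = ((e ⟨u (z : Ω₀), hMN _ z.2⟩ : N) : Ω) := by
    intro e z
    have h1 : e.liftNormal Ω (algebraMap N Ω ⟨u (z : Ω₀), hMN _ z.2⟩) =
        algebraMap N Ω (e ⟨u (z : Ω₀), hMN _ z.2⟩) := e.liftNormal_commutes Ω _
    obtain ⟨w, hw, hw2⟩ := hM (e.liftNormal Ω) (z : Ω₀) z.2
    exact ⟨⟨w, hw⟩, hw2.trans h1⟩
  choose f hf using hst
  have hinj : ∀ a b : M, u (a : Ω₀) = u (b : Ω₀) → a = b := fun a b h =>
    Subtype.ext (u.injective h)
  let T0 : (N ≃ₐ[F] N) → (M →ₐ[F₀] M) := fun e =>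
    { toFun := f e
      map_one' := hinj _ _ (by
        rw [hf]
        have : (⟨u ((1 : M) : Ω₀), hMN _ (1 : M).2⟩ : N) = 1 := Subtype.ext (map_one u)
        rw [this, map_one]
        exact (map_one u).symm)
      map_mul' := fun a b => hinj _ _ (by
        rw [hf]
        have h1 : (⟨u ((a * b : M) : Ω₀), hMN _ (a * b : M).2⟩ : N) =
            ⟨u (a : Ω₀), hMN _ a.2⟩ * ⟨u (b : Ω₀), hMN _ b.2⟩ :=
          Subtype.ext (map_mul u (a : Ω₀) (b : Ω₀))
        rw [h1, map_mul]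
        change ((e ⟨u (a : Ω₀), hMN _ a.2⟩ : N) : Ω) * ((e ⟨u (b : Ω₀), hMN _ b.2⟩ : N) : Ω) =
          u ((f e a : Ω₀) * (f e b : Ω₀))
        rw [map_mul, hf, hf])
      map_zero' := hinj _ _ (by
        rw [hf]
        have : (⟨u ((0 : M) : Ω₀), hMN _ (0 : M).2⟩ : N) = 0 := Subtype.ext (map_zero u)
        rw [this, map_zero]
        exact (map_zero u).symm)
      map_add' := fun a b => hinj _ _ (by
        rw [hf]
        have h1 : (⟨u ((a + b : M) : Ω₀), hMN _ (a + b : M).2⟩ : N) =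
            ⟨u (a : Ω₀), hMN _ a.2⟩ + ⟨u (b : Ω₀), hMN _ b.2⟩ :=
          Subtype.ext (map_add u (a : Ω₀) (b : Ω₀))
        rw [h1, map_add]
        change ((e ⟨u (a : Ω₀), hMN _ a.2⟩ : N) : Ω) + ((e ⟨u (b : Ω₀), hMN _ b.2⟩ : N) : Ω) =
          u ((f e a : Ω₀) + (f e b : Ω₀))
        rw [map_add, hf, hf])
      commutes' := fun r => hinj _ _ (by
        rw [hf]
        have h1 : (⟨u ((algebraMap F₀ M r : M) : Ω₀), hMN _ (algebraMap F₀ M r : M).2⟩ : N) =
            algebraMap F N (i r) := Subtype.ext (hu r)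
        rw [h1, e.commutes]
        exact (hu r).symm) }
  have hT0 : ∀ (e : N ≃ₐ[F] N) (z : M), u ((T0 e z : M) : Ω₀) =
      ((e ⟨u (z : Ω₀), hMN _ z.2⟩ : N) : Ω) := fun e z => hf e z
  have hT0' : ∀ (e : N ≃ₐ[F] N) (z : N) (w : M), u (w : Ω₀) = (z : Ω) →
      u ((T0 e w : M) : Ω₀) = ((e z : N) : Ω) := by
    intro e z w hw
    rw [hT0]
    have : (⟨u (w : Ω₀), hMN _ w.2⟩ : N) = z := Subtype.ext hw
    rw [this]
  have hone : ∀ z : M, T0 1 z = z := fun z => hinj _ _ (hT0' 1 ⟨u (z : Ω₀), hMN _ z.2⟩ z rfl)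
  have hmul : ∀ (e e' : N ≃ₐ[F] N) (z : M), T0 (e * e') z = T0 e (T0 e' z) := fun e e' z =>
    hinj _ _ (by
      rw [hT0' e (e' ⟨u (z : Ω₀), hMN _ z.2⟩) _ (hT0 e' z), hT0]
      rfl)
  let T1 : (N ≃ₐ[F] N) → (M ≃ₐ[F₀] M) := fun e =>
    AlgEquiv.ofAlgHom (T0 e) (T0 e⁻¹)
      (by
        ext z
        change ((T0 e (T0 e⁻¹ z) : M) : Ω₀) = (z : Ω₀)
        rw [← hmul, mul_inv_cancel, hone])
      (by
        ext z
        change ((T0 e⁻¹ (T0 e z) : M) : Ω₀) = (z : Ω₀)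
        rw [← hmul, inv_mul_cancel, hone])
  have hT1 : ∀ (e : N ≃ₐ[F] N) (z : M), T1 e z = T0 e z := fun e z => rfl
  let Φ : (N ≃ₐ[F] N) →* (M ≃ₐ[F₀] M) :=
    { toFun := T1
      map_one' := by
        ext z
        change ((T0 1 z : M) : Ω₀) = (z : Ω₀)
        rw [hone]
      map_mul' := fun e e' => by
        ext z
        change ((T0 (e * e') z : M) : Ω₀) = ((T0 e (T0 e' z) : M) : Ω₀)
        rw [hmul] }
  have hΦ : ∀ (e : N ≃ₐ[F] N) (z : M), Φ e z = T0 e z := fun e z => rfl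
  refine ⟨Φ, ?_, ?_⟩
  · refine continuous_of_continuousAt_one Φ ?_
    rw [ContinuousAt, map_one]
    intro s hs
    rw [krullTopology_mem_nhds_one_iff] at hs
    obtain ⟨E, hE, hEs⟩ := hs
    rw [Filter.mem_map, krullTopology_mem_nhds_one_iff]
    haveI := hE
    obtain ⟨t, ht⟩ := (Module.Finite.fg_top : (⊤ : Submodule F₀ E).FG)
    let g : E → N := fun z => ⟨u (((z : M) : Ω₀)), hMN _ (z : M).2⟩
    haveI : Finite (g '' (t : Set E)) := (t.finite_toSet.image g)
    refine ⟨IntermediateField.adjoin F (g '' (t : Set E)),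
      IntermediateField.finiteDimensional_adjoin (fun x _ => ?_), ?_⟩
    · have h1 : IsAlgebraic F (algebraMap N Ω x) := Algebra.IsAlgebraic.isAlgebraic _
      exact ((isAlgebraic_algebraMap_iff (algebraMap N Ω).injective).1 h1).isIntegral
    intro e he
    apply hEs
    rw [SetLike.mem_coe, IntermediateField.mem_fixingSubgroup_iff] at he ⊢
    have key : ∀ z : E, Φ e (z : M) = (z : M) := by
      intro z
      have hz : z ∈ Submodule.span F₀ (t : Set E) := by rw [ht]; trivial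
      induction hz using Submodule.span_induction with
      | mem z hz =>
        apply hinj
        rw [hΦ, hT0]
        exact congrArg (fun w : N => (w : Ω))
          (he (g z) (IntermediateField.subset_adjoin F _ ⟨z, hz, rfl⟩))
      | zero => exact map_zero _
      | add x y _ _ hx hy =>
        change Φ e ((x : M) + (y : M)) = (x : M) + (y : M)
        rw [map_add, hx, hy]
      | smul a x _ hx =>
        change Φ e (a • (x : M)) = a • (x : M)
        rw [map_smul, hx]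
    intro z hz
    exact key ⟨z, hz⟩
  · intro e z w hwz
    rw [hΦ]
    exact hT0' e z w hwz

/-- the algebraic closures of `k` in `Ω₀` and in `Ω` -/
theorem jex [IsAlgClosed Ω₀] (u : Ω₀ →+* Ω)
    (hk : ∀ c : k, u (algebraMap k Ω₀ c) = algebraMap k Ω c) :
    ∃ j : algebraicClosure k Ω₀ ≃ₐ[k] algebraicClosure k Ω,
      ∀ c : algebraicClosure k Ω₀, ((j c : algebraicClosure k Ω) : Ω) = u (c : Ω₀) := by
  have hinj := u.injective
  let uk : Ω₀ →ₐ[k] Ω := { u with commutes' := hk }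
  have huk : ∀ z, uk z = u z := fun z => rfl
  have hmem : ∀ c : algebraicClosure k Ω₀, u (c : Ω₀) ∈ algebraicClosure k Ω := by
    intro c
    obtain ⟨p, hp, hpc⟩ := mem_algebraicClosure_iff.1 c.2
    rw [mem_algebraicClosure_iff, ← huk]
    exact ⟨p, hp, by rw [Polynomial.aeval_algHom_apply, hpc, map_zero]⟩
  let j0 : algebraicClosure k Ω₀ →ₐ[k] algebraicClosure k Ω :=
    { toFun := fun c => ⟨u (c : Ω₀), hmem c⟩
      map_one' := Subtype.ext (map_one u)
      map_mul' := fun a b => Subtype.ext (map_mul u (a : Ω₀) (b : Ω₀))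
      map_zero' := Subtype.ext (map_zero u)
      map_add' := fun a b => Subtype.ext (map_add u (a : Ω₀) (b : Ω₀))
      commutes' := fun r => Subtype.ext (hk r) }
  have hj0 : ∀ c, ((j0 c : algebraicClosure k Ω) : Ω) = u (c : Ω₀) := fun c => rfl
  refine ⟨AlgEquiv.ofBijective j0 ⟨fun a b h => ?_, fun c => ?_⟩, hj0⟩
  · apply Subtype.ext
    apply hinj
    exact congrArg (fun w : algebraicClosure k Ω => (w : Ω)) h
  · obtain ⟨p, hp, hpc⟩ := mem_algebraicClosure_iff.1 c.2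
    obtain ⟨w, hw⟩ := rng0 (F₀ := k) u p hp (c : Ω) (by
      have : u.comp (algebraMap k Ω₀) = algebraMap k Ω := by
        ext a
        exact hk a
      rw [this]
      exact hpc)
    have hw' : w ∈ algebraicClosure k Ω₀ := by
      rw [mem_algebraicClosure_iff]
      refine ⟨p, hp, ?_⟩
      apply hinj
      rw [map_zero, ← huk, ← Polynomial.aeval_algHom_apply, huk, hw]
      exact hpc
    exact ⟨⟨w, hw'⟩, Subtype.ext hw⟩

/-- conjugation by an isomorphism is continuous -/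
theorem conj_cont {κ₀ κ : Type} [Field κ₀] [Field κ] [Algebra k κ₀] [Algebra k κ]
    (j : κ₀ ≃ₐ[k] κ) : Continuous (AlgEquiv.autCongr j : (κ₀ ≃ₐ[k] κ₀) →* (κ ≃ₐ[k] κ)) := by
  refine continuous_of_continuousAt_one _ ?_
  rw [ContinuousAt, map_one]
  intro s hs
  rw [krullTopology_mem_nhds_one_iff] at hs
  obtain ⟨E, hE, hEs⟩ := hs
  rw [Filter.mem_map, krullTopology_mem_nhds_one_iff]
  haveI := hE
  refine ⟨E.map (j.symm : κ →ₐ[k] κ₀),
    LinearEquiv.finiteDimensional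
      (IntermediateField.equivMap E (j.symm : κ →ₐ[k] κ₀)).toLinearEquiv, ?_⟩
  intro e he
  apply hEs
  rw [SetLike.mem_coe, IntermediateField.mem_fixingSubgroup_iff] at he ⊢
  intro z hz
  have h1 := he (j.symm z) ⟨z, hz, rfl⟩
  change j (e (j.symm z)) = z
  rw [h1, j.apply_symm_apply]

/-- the abstract form of part FUN -/
theorem absFun (hI : S_INRT) (ℓ : ℕ) [Fact ℓ.Prime] [CharZero k] [IsAlgClosed Ω₀]
    [Algebra.IsAlgebraic F₀ Ω₀] [IsAlgClosed Ω] [Algebra.IsAlgebraic F Ω]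
    (i : F₀ →ₐ[k] F) (u : Ω₀ →+* Ω) (hu : ∀ a, u (algebraMap F₀ Ω₀ a) = algebraMap F Ω (i a))
    (x₀ : F₀) (hx : Transcendental k x₀)
    (halg : Algebra.IsAlgebraic (IntermediateField.adjoin k {x₀}) F₀)
    (U : Set (ValuationSubring F)) (hU : ∀ O ∈ U, ∀ c : k, algebraMap k F c ∈ O)
    (G : Pool.Agent.W620.SC.GSection k F Ω U) :
    ∃ S : (algebraicClosure k Ω₀ ≃ₐ[k] algebraicClosure k Ω₀) →*
          (geomPro ℓ k F₀ Ω₀ ≃ₐ[F₀] geomPro ℓ k F₀ Ω₀), Continuous S ∧
        ∀ σ (c : algebraicClosure k Ω₀) (z : geomPro ℓ k F₀ Ω₀), (z : Ω₀) = (c : Ω₀) →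
          (S σ z : Ω₀) = (σ c : Ω₀) := by
  haveI : IsAlgClosure F₀ Ω₀ := ⟨inferInstance, inferInstance⟩
  have hinj := u.injective
  have hk : ∀ c : k, u (algebraMap k Ω₀ c) = algebraMap k Ω c := by
    intro c
    rw [IsScalarTower.algebraMap_apply k F₀ Ω₀, hu, i.commutes,
      ← IsScalarTower.algebraMap_apply k F Ω]
  obtain ⟨h1, h2⟩ := hI ℓ k F₀ Ω₀ x₀ hx halg
  have hu' : ∀ a, u (algebraMap F₀ Ω₀ a) = algebraMap F Ω ((i : F₀ →+* F) a) := hu
  -- the elements of the geometrically pro-`ℓ` extension are unramified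
  have hMN : ∀ z ∈ geomPro ℓ k F₀ Ω₀, u z ∈ Pool.Agent.W620.SC.unramified F Ω U := by
    intro z hz
    rw [Pool.Agent.W620.SC.mem_unramified]
    intro W hW τ hτ
    obtain ⟨τ₀, hτ₀⟩ := aut0 (i : F₀ →+* F) u hu' τ
    have h3 := h1 (W.comap u) (fun c => by
      rw [ValuationSubring.mem_comap, hk, IsScalarTower.algebraMap_apply k F Ω]
      have h4 := hU _ hW c
      rwa [ValuationSubring.mem_comap] at h4) τ₀ (fun y => by
      rw [ValuationSubring.mem_comap, ValuationSubring.mem_comap, hτ₀]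
      constructor
      · intro hy
        have h3 := (Pool.Agent.W620.SC.inertia_spec (inv_mem hτ) hy).1
        have h4 : (τ⁻¹ : Ω ≃ₐ[F] Ω) (τ (u y)) = u y := τ.symm_apply_apply (u y)
        rw [h4] at h3
        exact h3
      · intro hy
        exact (Pool.Agent.W620.SC.inertia_spec hτ hy).1) (fun y hy => by
      rw [ValuationSubring.mem_comap] at hy
      have h4 := (Pool.Agent.W620.SC.inertia_spec hτ hy).2
      rw [← hτ₀, ← map_sub] at h4
      rw [nonunits_iff] at h4 ⊢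
      rw [ValuationSubring.mem_comap, ValuationSubring.mem_comap, map_inv₀]
      refine ⟨h4.1, ?_⟩
      rcases h4.2 with h5 | h5
      · left
        apply hinj
        rw [h5, map_zero]
      · exact Or.inr h5) z hz
    rw [← hτ₀, h3]
  have hM : ∀ σ : Ω ≃ₐ[F] Ω, ∀ z ∈ geomPro ℓ k F₀ Ω₀, ∃ w ∈ geomPro ℓ k F₀ Ω₀, u w = σ (u z) := by
    intro σ z hz
    obtain ⟨σ₀, hσ₀⟩ := aut0 (i : F₀ →+* F) u hu' σ
    exact ⟨σ₀ z, h2 σ₀ z hz, hσ₀ z⟩
  obtain ⟨Φ, hΦ, hΦ'⟩ := restr' (i : F₀ →+* F) u hu' (geomPro ℓ k F₀ Ω₀)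
    (Pool.Agent.W620.SC.unramified F Ω U) hMN hM
  obtain ⟨j, hj⟩ := jex (k := k) u hk
  refine ⟨(Φ.comp G.toHom).comp (AlgEquiv.autCongr j : _ →* _),
    (hΦ.comp G.cont).comp (conj_cont j), ?_⟩
  intro σ c z hz
  apply hinj
  have h3 := hΦ' (G.toHom (AlgEquiv.autCongr j σ)) ⟨u (z : Ω₀), hMN _ z.2⟩ z rfl
  have h4 := G.compat (AlgEquiv.autCongr j σ) (j c) ⟨u (z : Ω₀), hMN _ z.2⟩ (by
    rw [hj, ← hz])
  have h5 : ((AlgEquiv.autCongr j σ) (j c) : algebraicClosure k Ω) = j (σ c) := by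
    change j (σ (j.symm (j c))) = j (σ c)
    rw [j.symm_apply_apply]
  rw [h5, hj] at h4
  exact h3.trans h4

/-- a field generated by `x₀` and `y₀` is algebraic over `k(x₀)` -/
theorem alg_gen (i : F₀ →ₐ[k] F) (x₀ y₀ : F₀)
    (htop : IntermediateField.adjoin k {x₀, y₀} = (⊤ : IntermediateField k F₀))
    (h : IsAlgebraic (IntermediateField.adjoin k {i x₀}) (i y₀)) :
    Algebra.IsAlgebraic (IntermediateField.adjoin k {x₀}) F₀ := by
  have hmap : (IntermediateField.adjoin k {x₀}).map i = IntermediateField.adjoin k {i x₀} := by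
    rw [IntermediateField.adjoin_map, Set.image_singleton]
  have hy : IsAlgebraic (IntermediateField.adjoin k {x₀}) y₀ := by
    obtain ⟨p, hp, hpy⟩ := h
    have hex : ∀ a : IntermediateField.adjoin k {i x₀}, ∃ b : IntermediateField.adjoin k {x₀},
        i (b : F₀) = (a : F) := by
      intro a
      have ha : (a : F) ∈ (IntermediateField.adjoin k {x₀}).map i := by
        rw [hmap]
        exact a.2
      obtain ⟨b, hb, hb2⟩ := ha
      exact ⟨⟨b, hb⟩, hb2⟩
    choose f hf using hex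
    have hinj : ∀ a b : IntermediateField.adjoin k {x₀}, i (a : F₀) = i (b : F₀) → a = b :=
      fun a b h => Subtype.ext (i.injective h)
    let φ : IntermediateField.adjoin k {i x₀} →+* IntermediateField.adjoin k {x₀} :=
      { toFun := f
        map_one' := hinj _ _ (by rw [hf]; exact (map_one i).symm)
        map_mul' := fun a b => hinj _ _ (by
          rw [hf]
          change (a : F) * (b : F) = i ((f a : F₀) * (f b : F₀))
          rw [map_mul, hf, hf])
        map_zero' := hinj _ _ (by rw [hf]; exact (map_zero i).symm)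
        map_add' := fun a b => hinj _ _ (by
          rw [hf]
          change (a : F) + (b : F) = i ((f a : F₀) + (f b : F₀))
          rw [map_add, hf, hf]) }
    have hφ : ∀ a, i (φ a : F₀) = (a : F) := hf
    refine ⟨p.map φ, (Polynomial.map_ne_zero_iff φ.injective).2 hp, ?_⟩
    refine (map_eq_zero_iff i i.injective).1 ?_
    rw [Polynomial.aeval_def, Polynomial.eval₂_map,
      show i (Polynomial.eval₂ ((algebraMap (IntermediateField.adjoin k {x₀}) F₀).comp φ) y₀ p) =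
        (i : F₀ →+* F) (Polynomial.eval₂ ((algebraMap (IntermediateField.adjoin k {x₀}) F₀).comp φ)
          y₀ p) from rfl, Polynomial.hom_eval₂]
    rw [Polynomial.aeval_def] at hpy
    have e : (i : F₀ →+* F).comp ((algebraMap (IntermediateField.adjoin k {x₀}) F₀).comp φ) =
        algebraMap (IntermediateField.adjoin k {i x₀}) F := by
      ext a
      exact hφ a
    rw [e]
    exact hpy
  have hle : IntermediateField.adjoin k {x₀, y₀} ≤
      (algebraicClosure (IntermediateField.adjoin k {x₀}) F₀).restrictScalars k := by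
    rw [IntermediateField.adjoin_le_iff]
    rintro z (rfl | hz)
    · rw [SetLike.mem_coe, IntermediateField.mem_restrictScalars, mem_algebraicClosure_iff]
      exact isAlgebraic_algebraMap
        (⟨z, IntermediateField.mem_adjoin_simple_self k z⟩ : IntermediateField.adjoin k {z})
    · rw [Set.mem_singleton_iff] at hz
      rw [SetLike.mem_coe, IntermediateField.mem_restrictScalars, mem_algebraicClosure_iff, hz]
      exact hy
  rw [htop] at hle
  refine ⟨fun z => ?_⟩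
  have hz := hle (show z ∈ (⊤ : IntermediateField k F₀) from trivial)
  rwa [IntermediateField.mem_restrictScalars, mem_algebraicClosure_iff] at hz

end

theorem acl (F₀ Ω : Type) [Field F₀] [Field Ω] [Algebra F₀ Ω] [IsAlgClosed Ω] :
    IsAlgClosed (algebraicClosure F₀ Ω) ∧ Algebra.IsAlgebraic F₀ (algebraicClosure F₀ Ω) :=
  ⟨IsAlgClosure.isAlgClosed F₀, inferInstance⟩

/-- part FUN -/
theorem funct (hI : S_INRT) : S_FUN := by
  intro ℓ _ k F Ω _ _ _ _ _ _ _ _ _ _ U hU G x y hx hy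
  have hxm : x ∈ IntermediateField.adjoin k {x, y} :=
    IntermediateField.subset_adjoin k _ (by simp)
  have hym : y ∈ IntermediateField.adjoin k {x, y} :=
    IntermediateField.subset_adjoin k _ (by simp)
  obtain ⟨F₀, hF₀⟩ : ∃ F₀ : IntermediateField k F, F₀ = IntermediateField.adjoin k {x, y} :=
    ⟨_, rfl⟩
  rw [← hF₀] at hxm hym
  letI a1 : Algebra F₀ Ω := inferInstance
  haveI a2 : IsScalarTower F₀ F Ω := inferInstance
  letI a4 : Algebra k (algebraicClosure F₀ Ω) :=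
    ((algebraMap F₀ (algebraicClosure F₀ Ω)).comp (algebraMap k F₀)).toAlgebra
  haveI a5 : IsScalarTower k F₀ (algebraicClosure F₀ Ω) := IsScalarTower.of_algebraMap_eq fun _ => rfl
  haveI a6 : IsAlgClosed (algebraicClosure F₀ Ω) := (acl F₀ Ω).1
  haveI a7 : Algebra.IsAlgebraic F₀ (algebraicClosure F₀ Ω) := (acl F₀ Ω).2
  have htop : IntermediateField.adjoin k {(⟨x, hxm⟩ : F₀), ⟨y, hym⟩} =
      (⊤ : IntermediateField k F₀) := by
    apply IntermediateField.map_injective F₀.val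
    rw [IntermediateField.adjoin_map, Set.image_pair, ← AlgHom.fieldRange_eq_map,
      IntermediateField.fieldRange_val]
    exact hF₀.symm
  have hx0 : Transcendental k (⟨x, hxm⟩ : F₀) := by
    rw [← transcendental_algebraMap_iff (R := k) (A := F) (algebraMap F₀ F).injective]
    exact hx
  have halg := alg_gen F₀.val (⟨x, hxm⟩ : F₀) ⟨y, hym⟩ htop hy
  exact ⟨F₀, algebraicClosure F₀ Ω, inferInstance, inferInstance, inferInstance, inferInstance, a4,
    a5, a6, a7, F₀.val, ⟨x, hxm⟩, ⟨y, hym⟩, rfl, rfl, htop,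
    absFun hI ℓ F₀.val (algebraMap (algebraicClosure F₀ Ω) Ω) (fun _ => rfl) _ hx0 halg U hU G⟩

end Pool.Agent.Y674.PS
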